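import Pool.Agent.Lib.MP_e426f4_ag.M.Final
import Pool.Agent.Lib.MP_e426f4_ag.P.Final

/-! Hypersurfaces and complete intersections in products of projective spaces in one statement. -/

namespace CIPHP

open Finset Filter Topology GenHP

section one
variable {ι : Type} [Fintype ι] [DecidableEq ι] {n : ι → ℕ} {d : Fin 1 → ι → ℕ}

/-- a system with one form -/
def oneSys (A : MIdx n (d 0) → ℤ) : PSys n d ℤ := Fin.cons A finZeroElim

theorem oneSys_zero (A : MIdx n (d 0) → ℤ) : oneSys (d := d) A 0 = A := rfl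

theorem oneSys_injective : Function.Injective (oneSys (n := n) (d := d)) := by
  intro A B h
  have := congrFun h 0
  exact this

theorem oneSys_surj (B : PSys n d ℤ) : oneSys (B 0) = B := by
  funext j
  have hj : j = 0 := Subsingleton.elim _ _
  subst hj
  rfl

theorem oneSys_mem (A : MIdx n (d 0) → ℤ) (H : ℕ) :
    oneSys (d := d) A ∈ pbox n d H ↔ A ∈ MBox n (d 0) H := by
  rw [mem_MBox]
  constructor
  · intro h t
    exact h 0 t
  · intro h j t
    have hj : j = 0 := Subsingleton.elim _ _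
    subst hj
    exact h t

theorem oneSys_soluble (A : MIdx n (d 0) → ℤ) : PSoluble (oneSys (d := d) A) ↔ MSoluble A := by
  unfold PSoluble MSoluble
  constructor
  · rintro ⟨z, hz, h⟩
    exact ⟨z, hz, h 0⟩
  · rintro ⟨z, hz, h⟩
    refine ⟨z, hz, fun j => ?_⟩
    have hj : j = 0 := Subsingleton.elim _ _
    subst hj
    exact h

theorem oneSys_els (A : MIdx n (d 0) → ℤ) : PELS (oneSys (d := d) A) ↔ MELS A := by
  unfold PELS MELS
  constructor
  · rintro ⟨⟨z, hz, h⟩, h2⟩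
    refine ⟨⟨z, hz, h 0⟩, fun p hp => ?_⟩
    obtain ⟨y, hy, h3⟩ := h2 p
    exact ⟨y, hy, h3 0⟩
  · rintro ⟨⟨z, hz, h⟩, h2⟩
    refine ⟨⟨z, hz, fun j => ?_⟩, fun p hp => ?_⟩
    · have hj : j = 0 := Subsingleton.elim _ _
      subst hj
      exact h
    · obtain ⟨y, hy, h3⟩ := h2 p
      refine ⟨y, hy, fun j => ?_⟩
      have hj : j = 0 := Subsingleton.elim _ _
      subst hj
      exact h3

theorem oneSys_smooth (hd : ∀ i, 1 ≤ d 0 i) [Nonempty ι] (A : MIdx n (d 0) → ℤ) :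
    PSmooth (oneSys (d := d) A) ↔ MSmooth A := by
  unfold PSmooth MSmooth
  constructor
  · intro h z hz
    by_contra hcon
    push Not at hcon
    obtain ⟨i⟩ := (inferInstance : Nonempty ι)
    have he := m_euler (fun t => (A t : ℂ)) z i
    simp only [hcon, mul_zero, Finset.sum_const_zero] at he
    have hdi : ((d 0 i : ℕ) : ℂ) ≠ 0 := by
      have := hd i
      exact_mod_cast (by omega : d 0 i ≠ 0)
    have h0 : MF (fun t => (A t : ℂ)) z = 0 := by
      rcases mul_eq_zero.mp he.symm with h1 | h1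
      · exact absurd h1 hdi
      · exact h1
    have hli := h z hz fun j => by
      have hj : j = 0 := Subsingleton.elim _ _
      subst hj
      exact h0
    have hne := hli.ne_zero 0
    apply hne
    funext v
    exact hcon v
  · intro h z hz _
    obtain ⟨v, hv⟩ := h z hz
    rw [linearIndependent_unique_iff]
    intro hzero
    apply hv
    have := congrFun hzero v
    exact this

theorem oneSys_ncard (H : ℕ) (p : PSys n d ℤ → Prop) (q : (MIdx n (d 0) → ℤ) → Prop)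
    (hpq : ∀ A, p (oneSys A) ↔ q A) :
    Set.ncard {B : PSys n d ℤ | B ∈ pbox n d H ∧ p B} =
      Set.ncard {A : MIdx n (d 0) → ℤ | A ∈ MBox n (d 0) H ∧ q A} := by
  rw [← Set.ncard_image_of_injective _ (oneSys_injective (n := n) (d := d))]
  congr 1
  ext B
  constructor
  · rintro ⟨hB, hp⟩
    rw [← oneSys_surj B] at hB hp
    exact ⟨B 0, ⟨(oneSys_mem _ H).mp hB, (hpq _).mp hp⟩, oneSys_surj B⟩
  · rintro ⟨A, ⟨hA, hq⟩, rfl⟩
    exact ⟨(oneSys_mem _ H).mpr hA, (hpq _).mpr hq⟩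

theorem NP_one : NP n d = NM n (d 0) := by
  unfold NP
  simp

end one

section multi
variable {ι : Type} [Fintype ι] [DecidableEq ι] {n : ι → ℕ}

/-- positive proportion of smooth soluble systems and few exceptions, for all r >= 1 -/
theorem ufinal {r : ℕ} {d : Fin r → ι → ℕ} (hr : 1 ≤ r) (hn : ∀ i, 1 ≤ n i)
    (hd : ∀ j i, 1 ≤ d j i) (i0 : ι) (hs : ∑ j, d j i0 ≤ n i0)
    (h2 : 2 ≤ r → ∀ j, 2 ≤ d j i0)
    (h1 : ¬ (r = 1 ∧ n i0 = 2 ∧ (∀ j, d j i0 = 2) ∧ ∀ i, i = i0)) :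
    (∃ c : ℝ, 0 < c ∧ ∀ᶠ H : ℕ in atTop, c * (2 * H + 1) ^ NP n d ≤
      (Set.ncard {A : PSys n d ℤ | A ∈ pbox n d H ∧ PSmooth A ∧ PSoluble A} : ℝ)) ∧
    (∀ eps : ℝ, 0 < eps → ∀ᶠ H : ℕ in atTop,
      (Set.ncard {A : PSys n d ℤ | A ∈ pbox n d H ∧ PELS A ∧ ¬ PSoluble A} : ℝ) ≤
        eps * (2 * H + 1) ^ NP n d) := by
  haveI : Nonempty ι := ⟨i0⟩
  rcases Nat.lt_or_ge r 2 with hr2 | hr2
  · have hr1 : r = 1 := by omega
    subst hr1
    have hs' : d 0 i0 ≤ n i0 := by simpa using hs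
    have h1' : ¬ (n i0 = 2 ∧ d 0 i0 = 2 ∧ ∀ i, i = i0) := by
      rintro ⟨ha, hb, hc⟩
      refine h1 ⟨rfl, ha, fun j => ?_, hc⟩
      have hj : j = 0 := Subsingleton.elim _ _
      subst hj
      exact hb
    obtain ⟨⟨c, hc, hpos⟩, hex⟩ := GenHP.final (n := n) (d := d 0) hn (hd 0) i0 hs' h1'
    have t1 : ∀ H : ℕ, Set.ncard {B : PSys n d ℤ | B ∈ pbox n d H ∧ PSmooth B ∧ PSoluble B} =
        Set.ncard {A : MIdx n (d 0) → ℤ | A ∈ MBox n (d 0) H ∧ MSmooth A ∧ MSoluble A} := fun H =>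
      oneSys_ncard H _ _ fun A => by rw [oneSys_smooth (hd 0), oneSys_soluble]
    have t2 : ∀ H : ℕ, Set.ncard {B : PSys n d ℤ | B ∈ pbox n d H ∧ PELS B ∧ ¬ PSoluble B} =
        Set.ncard {A : MIdx n (d 0) → ℤ | A ∈ MBox n (d 0) H ∧ MELS A ∧ ¬ MSoluble A} := fun H =>
      oneSys_ncard H _ _ fun A => by rw [oneSys_els, oneSys_soluble]
    refine ⟨⟨c, hc, ?_⟩, fun eps he => ?_⟩
    · filter_upwards [hpos] with H hH
      rw [t1 H, NP_one]
      exact hH
    · filter_upwards [hex eps he] with H hH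
      rw [t2 H, NP_one]
      exact hH
  · obtain ⟨⟨c, hc, hsol⟩, hex, hfs⟩ := CIPHP.final (n := n) (d := d) hr2 hd i0 (h2 hr2) hs
    refine ⟨⟨c / 2, by positivity, ?_⟩, hex⟩
    have hsplit : ∀ H, Set.ncard {A : PSys n d ℤ | A ∈ pbox n d H ∧ PSoluble A} ≤
        Set.ncard {A : PSys n d ℤ | A ∈ pbox n d H ∧ PSmooth A ∧ PSoluble A} +
        Set.ncard {A : PSys n d ℤ | A ∈ pbox n d H ∧ ¬ PSmooth A} := fun H => by
      refine (Set.ncard_le_ncard ?_ ((pbox_finite H _).union (pbox_finite H _))).trans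
        (Set.ncard_union_le _ _)
      intro A hA
      by_cases h : PSmooth A
      · exact Or.inl ⟨hA.1, h, hA.2⟩
      · exact Or.inr ⟨hA.1, h⟩
    filter_upwards [hsol, hfs (c / 2) (by positivity)] with H ha hb
    have h3 : (Set.ncard {A : PSys n d ℤ | A ∈ pbox n d H ∧ PSoluble A} : ℝ) ≤
        (Set.ncard {A : PSys n d ℤ | A ∈ pbox n d H ∧ PSmooth A ∧ PSoluble A} : ℝ) +
        (Set.ncard {A : PSys n d ℤ | A ∈ pbox n d H ∧ ¬ PSmooth A} : ℝ) := by
      exact_mod_cast hsplit H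
    linarith

end multi

end CIPHP
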